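import Pool.Agent.H15.G.R_seed8.TH442.NF.HH
import Pool.Agent.H15.G.R_seed8.TH167.SH.Segre

set_option autoImplicit false

/-!
# The reduction of a special class to a special standard class of the same dimension
-/

namespace Pool.Agent.Y536.SH

open MvPolynomial Pool.Agent.W609 Pool.Agent.W609.CR Pool.Agent.TH167 Pool.Agent.TH167.SH
  Pool.Agent.H932R3 Pool.Agent.TH442.NF

/-- A special system is `(-1)`-special, or it reduces to a special reduced class of the same
dimension outside of the list. -/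
theorem hh_full {r : ℕ} {Q : ℕ → (Fin (r + 4) → ℕ) → Prop}
    (hQ : ∀ {K : Type} [Field K] [CharZero K] {P : Fin (r + 4) → Fin 2 → K},
      AlgebraicIndependent ℚ (fun ij : Fin (r + 4) × Fin 2 => P ij.1 ij.2) →
        ∀ {d1 : ℕ} {w1 : Fin (r + 4) → ℕ}, Reduced d1 w1 → Q d1 w1 → ExpDim K w1 P d1)
    (d : ℕ) (w : Fin (r + 4) → ℕ) :
    ∃ F : MvPolynomial (Fin (r + 4) × Fin 2) ℚ, F ≠ 0 ∧ ∀ (K : Type) [Field K] [CharZero K]
      (P : Fin (r + 4) → Fin 2 → K), evP P F ≠ 0 → SH.Special P d w →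
        MSpecial P d w ∨ ∃ (d' : ℕ) (w' : Fin (r + 4) → ℕ) (k : ℕ)
          (C : Fin k → MvPolynomial (Fin 3) K) (e : Fin k → ℕ) (u : Fin k → Fin (r + 4) → ℕ)
          (N : Fin k → ℕ) (d1 : ℕ) (w1 : Fin (r + 4) → ℕ),
          Dcp P d w d' w' C e u N ∧ Relation.ReflTransGen Quad (d', w') (d1, w1) ∧
          Reduced d1 w1 ∧ SH.Special P d1 w1 ∧
          Module.finrank K ↥(VS (fun j => aff (P j)) w1 d1) =
            Module.finrank K ↥(VS (fun j => aff (P j)) w d) ∧ ¬ Q d1 w1 := by
  classical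
  obtain ⟨g, Fg, hFg, hg⟩ := dim_gen w d
  obtain ⟨K0, i1, i2, P0, hP0⟩ := SH.exists_generic (r + 4)
  rcases Nat.eq_zero_or_pos g with hg0 | hg0
  · refine ⟨Fg, hFg, fun K _ _ P hP hs => ?_⟩
    exfalso
    rw [special_iff, hg K P hP, hg0] at hs
    omega
  · have hg1 := hg K0 P0 (evP_ne hP0 hFg)
    obtain ⟨M, hM⟩ : ∃ M, ∀ j, w j ≤ M := ⟨∑ j, w j, fun j =>
      Finset.single_le_sum (fun _ _ => Nat.zero_le _) (Finset.mem_univ j)⟩
    have hw : Few M d w := by
      left
      rw [Finset.filter_false_of_mem fun j _ => not_lt.2 (hM j)]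
      simp
    obtain ⟨d', w', k, C0, e, u, N, hD, hdim, P1, d1, w1, hP1, hchain, hfew, hred, hdim1⟩ :=
      main d P0 hP0 w hw (by rw [hg1]; exact hg0)
    obtain ⟨g', Fg', hFg', hg'⟩ := dim_gen w' d'
    obtain ⟨g1, Fg1, hFg1, hg1'⟩ := dim_gen w1 d1
    have hge : g' = g := by
      rw [← hg' K0 P0 (evP_ne hP0 hFg'), hdim, hg1]
    have hg1e : g1 = g := by
      rw [← hg1' K0 P1 (evP_ne hP1 hFg1), hdim1, hdim, hg1]
    have hspr := fun a => exc_spread (e a) (u a) ⟨K0, i1, i2, P0, C0 a, hP0, hD.exc a⟩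
    choose Fa hFa hFa' using hspr
    refine ⟨Fg * Fg' * Fg1 * ∏ a, Fa a, mul_ne_zero (mul_ne_zero (mul_ne_zero hFg hFg') hFg1)
      (Finset.prod_ne_zero_iff.2 fun a _ => hFa a), fun K _ _ P hP hs => ?_⟩
    rw [map_mul, map_mul, map_mul, map_prod] at hP
    have q0 := hg K P (left_ne_zero_of_mul (left_ne_zero_of_mul (left_ne_zero_of_mul hP)))
    have q1 := hg' K P (right_ne_zero_of_mul (left_ne_zero_of_mul (left_ne_zero_of_mul hP)))
    have q2 := hg1' K P (right_ne_zero_of_mul (left_ne_zero_of_mul hP))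
    have q3 := Finset.prod_ne_zero_iff.1 (right_ne_zero_of_mul hP)
    choose C hC using fun a => hFa' a K P (q3 a (Finset.mem_univ a))
    have hDcp : Dcp P d w d' w' C e u N := ⟨hC, hD.pos, hD.orth, hD.deg, hD.mul, hD.zero⟩
    obtain ⟨c1, c2, c3⟩ := quad_inv hchain
    simp only at c1 c2 c3
    rw [special_iff, q0] at hs
    by_cases hns : chi d1 w1 = g
    · left
      refine ⟨d', w', k, C, e, u, N, hDcp, by omega, ?_⟩
      by_contra hcon
      push Not at hcon
      have h2 := hDcp.chi_one hcon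
      omega
    · right
      refine ⟨d', w', k, C, e, u, N, d1, w1, hDcp, hchain, hred, ?_, ?_, ?_⟩
      · rw [special_iff, q2]
        have h3 := chi_le_dim P d1 w1
        rw [q2] at h3
        constructor
        · omega
        · rw [hg1e] at h3 ⊢
          omega
      · rw [q2, q0, hg1e]
      · intro hq
        have h1 := hQ hP1 hred hq
        rw [expDim_iff, hdim1, hdim, hg1] at h1
        rcases max_choice (0 : ℤ) (chi d1 w1) with h | h
        · omega
        · omega

/-- A form of the class of a `(-1)`-curve is a multiple of its equation. -/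
theorem exc_dim {K : Type} [Field K] {s : ℕ} {P : Fin s → Fin 2 → K}
    (hP : Function.Injective P) {C : MvPolynomial (Fin 3) K} {e : ℕ} {u : Fin s → ℕ}
    (hC : Exc P C e u) : Module.finrank K ↥(VS (fun j => aff (P j)) u e) ≤ 1 := by
  have hmem : C ∈ VS (fun j => aff (P j)) u e := (mem_VS _ _ _ _).2 ⟨hC.hom, fun j => (hC.ord j).1⟩
  refine finrank_le_one (⟨C, hmem⟩ : ↥(VS (fun j => aff (P j)) u e)) fun f => ?_
  obtain ⟨f, hf⟩ := f
  have h1 := exc_pow_dvd hP hC 1 e u (by rw [self_iff.1 hC.self]; rfl) f hf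
  rw [pow_one] at h1
  obtain ⟨H, rfl⟩ := h1
  rcases eq_or_ne H 0 with h0 | h0
  · refine ⟨0, Subtype.ext ?_⟩
    show (0 : K) • C = C * H
    rw [h0, mul_zero, zero_smul]
  · have h2 : (C * H).totalDegree = e :=
      ((mem_VS _ _ _ _).1 hf).1.totalDegree (mul_ne_zero hC.irr.ne_zero h0)
    have h3 : C.totalDegree = e := hC.hom.totalDegree hC.irr.ne_zero
    rw [MvPolynomial.totalDegree_mul_of_isDomain hC.irr.ne_zero h0, h3] at h2
    have h4 : H.totalDegree = 0 := by omega
    rw [totalDegree_eq_zero_iff_eq_C] at h4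
    refine ⟨coeff 0 H, Subtype.ext ?_⟩
    show coeff 0 H • C = C * H
    conv_rhs => rw [h4]
    rw [MvPolynomial.smul_eq_C_mul, mul_comm]

/-- **Prime divisors.** The class of a prime divisor at generic points is not special, or finitely
many quadratic transformations carry it to a special standard class of the same dimension outside
of the list. -/
theorem prime_full {r : ℕ} {Q : ℕ → (Fin (r + 4) → ℕ) → Prop}
    (hQ : ∀ {K : Type} [Field K] [CharZero K] {P : Fin (r + 4) → Fin 2 → K},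
      AlgebraicIndependent ℚ (fun ij : Fin (r + 4) × Fin 2 => P ij.1 ij.2) →
        ∀ {d1 : ℕ} {w1 : Fin (r + 4) → ℕ}, Reduced d1 w1 → Q d1 w1 → ExpDim K w1 P d1)
    {K : Type} [Field K] [CharZero K] {P : Fin (r + 4) → Fin 2 → K}
    (hP : AlgebraicIndependent ℚ (fun ij : Fin (r + 4) × Fin 2 => P ij.1 ij.2))
    {d : ℕ} {w : Fin (r + 4) → ℕ} {C : MvPolynomial (Fin 3) K} (hC : SHDefs.Curve P C d w)
    (hne : SHDefs.dimL P d w ≠ SHDefs.virtdim d w) :
    ∃ (d1 : ℕ) (w1 : Fin (r + 4) → ℕ),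
      Relation.ReflTransGen SHDefs.Quadratic (d, w) (d1, w1) ∧ Reduced d1 w1 ∧
      SHDefs.Special P d1 w1 ∧ SHDefs.dimL P d1 w1 = SHDefs.dimL P d w ∧ ¬ Q d1 w1 := by
  classical
  have hinj := inj_of_alg hP
  obtain ⟨hCi, hCh, hCo⟩ := curve_iff.1 hC
  have hmem : C ∈ VS (fun j => aff (P j)) w d := (mem_VS _ _ _ _).2 ⟨hCh, fun j => (hCo j).1⟩
  have hfin := vs_fin (fun j => aff (P j)) w d
  have hpos : 0 < Module.finrank K ↥(VS (fun j => aff (P j)) w d) :=
    Module.finrank_pos_iff.2 ⟨⟨C, hmem⟩, 0, fun h7 => hCi.ne_zero (congrArg Subtype.val h7)⟩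
  have hsp : SH.Special P d w := by
    rw [special_iff]
    refine ⟨hpos, ?_⟩
    rw [dimL_eq, virtdim_eq] at hne
    have := chi_le_dim P d w
    omega
  obtain ⟨F, hF, hF'⟩ := hh_full hQ d w
  rcases hF' K P (evP_ne hP hF) hsp with h | ⟨d', w', k, C', e, u, N, d1, w1, hD, h2, h3, h4, h5, h6⟩
  · exfalso
    obtain ⟨G, e, u, hG, h2⟩ := mspecial_curve ((mspecial_conv P d w).2 h)
    have h3 := curve_sq_dvd hinj hG h2 (by rw [sys_eq]; exact hmem)
    have h5 := hCi.squarefree G (by rw [← pow_two]; exact h3)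
    exact hG.curve.irreducible.not_isUnit h5
  · rcases Nat.eq_zero_or_pos k with hk | hk
    · subst hk
      have e1 := hD.deg
      have e2 := hD.mul
      simp only [Finset.univ_eq_empty, Finset.sum_empty, add_zero] at e1 e2
      have e3 : w = w' := funext e2
      subst e1 e3
      refine ⟨d1, w1, chain_conv h2, h3, (special_conv P d1 w1).2 h4, ?_, h6⟩
      rw [dimL_eq, dimL_eq, h5]
    · exfalso
      obtain ⟨a⟩ : Nonempty (Fin k) := ⟨⟨0, hk⟩⟩
      have h7 := hD.neg a
      have h8 := hD.pos a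
      have h9 := exc_pow_dvd hinj (hD.exc a) 1 d w (by rw [h7]; omega) C hmem
      rw [pow_one] at h9
      obtain ⟨H, hH⟩ := h9
      have hu : IsUnit H := by
        rcases hCi.isUnit_or_isUnit hH with h | h
        · exact absurd h (hD.exc a).irr.not_isUnit
        · exact h
      obtain ⟨c, hc, rfl⟩ : ∃ c : K, c ≠ 0 ∧ H = MvPolynomial.C c := by
        have h10 := MvPolynomial.isUnit_iff_eq_C_of_isReduced.1 hu
        obtain ⟨c, hc, rfl⟩ := h10
        exact ⟨c, hc.ne_zero, rfl⟩
      have hde : d = e a := by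
        have t1 : C.totalDegree = d := hCh.totalDegree hCi.ne_zero
        have t2 : (C' a).totalDegree = e a := (hD.exc a).hom.totalDegree (hD.exc a).irr.ne_zero
        rw [hH, MvPolynomial.totalDegree_mul_of_isDomain (hD.exc a).irr.ne_zero hu.ne_zero,
          MvPolynomial.totalDegree_C, t2] at t1
        omega
      have hwu : w = u a := by
        funext j
        have t1 : Ord (aff (P j)) (u a j + 0) (C' a * MvPolynomial.C c) := by
          refine ord_mul ((hD.exc a).ord j) ⟨van_zero _ _, fun h => ?_⟩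
          rw [zero_add, van_one, MvPolynomial.eval_C] at h
          exact hc h
        rw [add_zero, ← hH] at t1
        exact ord_unique (hCo j) t1
      subst hde hwu
      have h10 := exc_dim hinj (hD.exc a)
      have h11 := two_chi (e a) (u a)
      rw [self_iff.1 (hD.exc a).self, can_iff.1 (hD.exc a).can] at h11
      rw [special_iff] at hsp
      omega

end Pool.Agent.Y536.SH
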